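import Pool.Agent.X242.LB2
import Pool.Agent.TH941.Newform
import Pool.Agent.TH942.Ner

/-!
# The constant of the leading-term formula is a limit point of the products of Birch and Swinnerton-Dyer

Let `E : y² = x³ + a x + b` be an elliptic curve over `ℚ`, `a, b ∈ ℤ`, `F` the entire continuation of its
incomplete `L`-series (the Euler factors at the primes dividing `2Δ` are removed), `f` its newform, `N_p`
the number of affine points modulo `p ∤ 2Δ`,

`P(x) = ∏_{p ≤ x, p ∤ 2Δ} (N_p + 1)/p`,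

`m = ord_{s=1} F`, `l = |F^{(m)}(1)| / m!`. Goldfeld (1982): if `P(x) ∼ C (log x)^ρ` then `F` has no zeros
with `Re s > 1`, `ρ = m` and `C = κ := √2 e^{mγ} / l`. Whether `P(x) / (log x)^m` converges is not known
for any curve, and it is not even implied by the Riemann hypothesis. Here it is shown, without the
hypothesis of convergence and without any form of the Riemann hypothesis:

* for EVERY `E` we have `limsup P(x) / (log x)^m ≥ κ`;
* if `F` has no REAL zeros `> 1`, then `κ` is a LIMIT POINT of `P(x) / (log x)^m`: there are `x_1 < x_2 < …`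
  with `P(x_n) / (log x_n)^m → κ`. (With real zeros this can fail: then `P(x)/(log x)^m` may tend to
  infinity.)
* Hence one-sided bounds for the products give bounds for the order and for the leading coefficient: if
  `P(x) ≤ C (log x)^r` for large `x`, then `F` has no zeros with `Re s > 1`, `m ≤ r`, and, if `m = r`,
  `F^{(r)}(1)/r! ≥ √2 e^{rγ}/C`. If `P(x) ≥ c (log x)^r` for large `x` and `F` has no real zeros `> 1`, then
  `m ≥ r`, and, if `m = r`, `F^{(r)}(1)/r! ≤ √2 e^{rγ}/c`.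
* The same with the number `R(x)` of the RATIONAL points of height `≤ x` in the place of the powers
  of `log x`. Let `r` be the rank, `t` the order of the torsion subgroup, `Reg` the regulator (with the
  canonical height `lim 4^{-n} h(x(2^n P))`), `V_r` the volume of the unit ball in `ℝ^r`, and define `A`
  by `l = A Reg / t²`. If there are `c, C > 0` with `c R(x)² ≤ P(x) ≤ C R(x)²` for all large `x`, then
  the rank form of the conjecture and the Riemann hypothesis for `F` hold and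

  `√2 e^{rγ} / (C V_r²) ≤ A ≤ √2 e^{rγ} / (c V_r²)`.

  And if `m = r` and `F` has no real zeros `> 1`, then `√2 e^{rγ} / (A V_r²)` is a limit point
  of `P(x) / R(x)²`.

The leading-term formula says that `A = Ω⁺ #Ш Tam(E) ∏_{p ∣ 2Δ} L_p(1)⁻¹`.

Proof. Up to `o(1)`, `log P(e^u)` is `log √2` plus a function whose Laplace transform is given by
`log F(1 + s)` (the factor `√2` comes from the theorem of Rankin and Selberg). If the values were
larger (smaller) than `κ` by a constant factor from some point on, one gets a contradiction from the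
behaviour at real `s → 0`; on one side Landau's theorem is needed, and this is where the real zeros
come in (`Pool.Agent.W263.BSD.Lead1` to `Lead8`). The jumps of `P` are small by Hasse's theorem, so that
a sequence which is frequently above `κ - ε` and frequently below `κ + ε` has the limit point `κ`
(`Pool.Agent.X242.LB1`). The count of rational points is Néron's asymptotic formula
(`Pool.Agent.TH942.neron`).
-/

set_option autoImplicit false

open Filter Topology Classical CongruenceSubgroup UpperHalfPlane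
open scoped MatrixGroups

namespace Pool.Agent.Results.MP_92892c_nt.ProductsBracketLeadingTerm

/-- `N_p`: the number of pairs `(x, y) ∈ (ℤ/p)²` with `y² = x³ + a x + b`. -/
noncomputable def N (a b : ℤ) (p : ℕ) : ℕ :=
  Nat.card {q : ZMod p × ZMod p // q.2 ^ 2 = q.1 ^ 3 + (a : ZMod p) * q.1 + (b : ZMod p)}

/-- `p` is a prime not dividing `2Δ`, `Δ = -4 a³ - 27 b²`. -/
def Good (a b : ℤ) (p : ℕ) : Prop :=
  p.Prime ∧ ¬ ((p : ℤ) ∣ 2 * (-4 * a ^ 3 - 27 * b ^ 2))

/-- The original Birch and Swinnerton-Dyer product `P(x) = ∏_{p ≤ x, p ∤ 2Δ} (N_p + 1)/p`. -/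
noncomputable def P (a b : ℤ) (x : ℝ) : ℝ :=
  ∏ p ∈ (Finset.range (⌊x⌋₊ + 1)).filter (Good a b), (((N a b p : ℝ) + 1) / p)

/-- `F` is entire and for `Re s > 3/2` it is the incomplete `L`-series
`∏_{p ∤ 2Δ} (1 - a_p p^{-s} + p^{1-2s})⁻¹`, `a_p = p - N_p`, of `y² = x³ + a x + b`. -/
def IsLSeries (a b : ℤ) (F : ℂ → ℂ) : Prop :=
  Differentiable ℂ F ∧ ∀ s : ℂ, (3 : ℝ) / 2 < s.re →
    HasProd (fun p : ℕ => if Good a b p then
      (1 - ((p : ℂ) - (N a b p : ℂ)) * (p : ℂ) ^ (-s) + (p : ℂ) ^ (1 - 2 * s))⁻¹ else 1) (F s)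

/-- The `n`-th Fourier coefficient of `f`. -/
noncomputable def coef {M : ℕ} (f : CuspForm (Gamma0 M : Subgroup (GL (Fin 2) ℝ)) 2) (n : ℕ) : ℂ :=
  (qExpansion 1 f).coeff n

/-- `f ∈ S_2(Γ₀(M))` is the newform of the elliptic curve `E : y² = x³ + a x + b` of conductor `M`: the
Fourier coefficients `c(n)` of `f` are real with `c(1) = 1`, they satisfy the Hecke relations
`c(mn) = c(m) c(n)` for coprime `m`, `n` and `c(p^(j+2)) = c(p) c(p^(j+1)) - p c(p^j)` (without the last
term if `p ∣ M`), `c(p) = a_p = p - N_p` for all primes `p ∤ 2Δ`, `|c(p)| ≤ 2 √p` for all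
`p ∤ M` (Hasse) and `c(p) = 0, 1, -1` for `p ∣ M`. -/
structure IsNewformOf (a b : ℤ) (M : ℕ) (f : CuspForm (Gamma0 M : Subgroup (GL (Fin 2) ℝ)) 2) :
    Prop where
  one : coef f 1 = 1
  real : ∀ n, (coef f n).im = 0
  mul : ∀ m n : ℕ, Nat.Coprime m n → coef f (m * n) = coef f m * coef f n
  pow : ∀ p j : ℕ, p.Prime → coef f (p ^ (j + 2)) = coef f p * coef f (p ^ (j + 1)) -
      (if p ∣ M then 0 else (p : ℂ) * coef f (p ^ j))
  points : ∀ p : ℕ, Good a b p → coef f p = (p : ℂ) - (N a b p : ℂ)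
  good : ∀ p : ℕ, p.Prime → ¬ p ∣ M → ‖coef f p‖ ≤ 2 * Real.sqrt p
  bad : ∀ p : ℕ, p.Prime → p ∣ M → coef f p = 0 ∨ coef f p = 1 ∨ coef f p = -1

/-- `F` has no zeros with `Re s > 1`. -/
def NoZeros (F : ℂ → ℂ) : Prop := ∀ s : ℂ, 1 < s.re → F s ≠ 0

/-- `F` has no real zeros `> 1`. -/
def NoRealZeros (F : ℂ → ℂ) : Prop := ∀ s : ℝ, 1 < s → F s ≠ 0

/-- The group `E(ℚ)` of the rational points of `y² = x³ + a x + b`. -/
abbrev Points (a b : ℤ) : Type :=
  WeierstrassCurve.Affine.Point (WeierstrassCurve.toAffine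
    ({ a₁ := 0, a₂ := 0, a₃ := 0, a₄ := (a : ℚ), a₆ := (b : ℚ) } : WeierstrassCurve ℚ))

/-- The number `R(X)` of rational points of `y² = x³ + a x + b` of height at most `X`: the point at
infinity and the points `(x, y)` with `x = u / v` in lowest terms, `max (|u|, v) ≤ X`. -/
noncomputable def R (a b : ℤ) (X : ℝ) : ℕ :=
  Nat.card {P : ℚ × ℚ // P.2 ^ 2 = P.1 ^ 3 + a * P.1 + b ∧
    (max P.1.num.natAbs P.1.den : ℝ) ≤ X} + 1

/-- The height `log max (|m|, n)` of a point with `x = m / n` in lowest terms, and `0` for the point at infinity. -/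
noncomputable def height {a b : ℤ} : Points a b → ℝ
  | .zero => 0
  | .some x _ _ => Real.log (max x.num.natAbs x.den : ℕ)

/-- The canonical height `lim 4^{-n} h(x(2^n P))`. -/
noncomputable def canHeight {a b : ℤ} (P : Points a b) : ℝ :=
  limUnder atTop fun n : ℕ => height ((2 ^ n : ℕ) • P) / 4 ^ n

/-- `⟨P, Q⟩ = (ĥ(P + Q) - ĥ(P) - ĥ(Q)) / 2` -/
noncomputable def pairing {a b : ℤ} (P Q : Points a b) : ℝ :=
  (canHeight (P + Q) - canHeight P - canHeight Q) / 2

/-- `g` is a basis of `E(ℚ)` modulo torsion. -/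
def IsBasis {a b : ℤ} {r : ℕ} (g : Fin r → Points a b) : Prop :=
  ∀ P : Points a b, ∃! n : Fin r → ℤ, IsOfFinAddOrder (P - ∑ i, n i • g i)

/-- The regulator `det (⟨g_i, g_j⟩)`. -/
noncomputable def Reg {a b : ℤ} {r : ℕ} (g : Fin r → Points a b) : ℝ :=
  (Matrix.of fun i j => pairing (g i) (g j)).det

/-- The order of the torsion subgroup. -/
noncomputable def numTorsion (a b : ℤ) : ℕ := Nat.card {P : Points a b // IsOfFinAddOrder P}

/-- The volume `π^(r/2) / Γ(r/2 + 1)` of the unit ball in `ℝ^r`. -/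
noncomputable def V (r : ℕ) : ℝ := √Real.pi ^ r / Real.Gamma (r / 2 + 1)

/-- The constant `√2 e^{mγ} / l` of Goldfeld. -/
noncomputable def kappa (m : ℕ) (l : ℝ) : ℝ :=
  √2 * Real.exp (m * Real.eulerMascheroniConstant) / l

/-! ### Proof -/

variable {a b : ℤ} {F : ℂ → ℂ}

theorem hecke {M : ℕ} {f : CuspForm (Gamma0 M : Subgroup (GL (Fin 2) ℝ)) 2}
    (hf : IsNewformOf a b M f) : Pool.Agent.TH941.Hecke f where
  one := hf.one
  real := hf.real
  mul := hf.mul
  pow := hf.pow
  good := hf.good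
  bad := fun p hp h => by
    rcases hf.bad p hp h with h1 | h1 | h1
    · have h2 : ‖coef f p‖ ≤ 1 := by rw [h1]; simp
      exact h2
    · have h2 : ‖coef f p‖ ≤ 1 := by rw [h1]; simp
      exact h2
    · have h2 : ‖coef f p‖ ≤ 1 := by rw [h1]; simp
      exact h2

theorem height_eq (P : Points a b) : height P = Pool.Agent.TH942.sht (a := (a : ℚ)) (b := (b : ℚ)) P := by
  cases P with
  | zero =>
    have h : Pool.Agent.TH942.sht (K := ℚ) (a := (a : ℚ)) (b := (b : ℚ)) (0 : Points a b) = 0 :=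
      Pool.Agent.TH942.sht_zero
    exact h.symm
  | some x y h => exact (Pool.Agent.TH942.sht_some h).symm

theorem neron' (hΔ : 4 * a ^ 3 + 27 * b ^ 2 ≠ 0) :
    (∀ P : Points a b, Tendsto (fun n : ℕ => height ((2 ^ n : ℕ) • P) / 4 ^ n) atTop
      (𝓝 (canHeight P))) ∧
    (∃ (r : ℕ) (g : Fin r → Points a b), IsBasis g) ∧ 0 < numTorsion a b ∧
    ∀ (r : ℕ) (g : Fin r → Points a b), IsBasis g →
      Module.finrank ℤ (Points a b) = r ∧ 0 < Reg g ∧
      Tendsto (fun X : ℝ => (R a b X : ℝ) / (Real.log X) ^ ((r : ℝ) / 2)) atTop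
        (𝓝 (numTorsion a b * V r / √ (Reg g))) := by
  have hD : 4 * (a : ℚ) ^ 3 + 27 * (b : ℚ) ^ 2 ≠ 0 := by exact_mod_cast hΔ
  obtain ⟨q, C, h1, h2, h3, h4, h5⟩ := Pool.Agent.TH942.neron (K := ℚ) hD
  have hq : ∀ P : Points a b, canHeight P = q P := by
    intro P
    refine Tendsto.limUnder_eq ((h4 P).congr fun n => ?_)
    rw [height_eq]
    rfl
  refine ⟨fun P => ?_, ?_, ?_, fun r g hg => ?_⟩
  · rw [hq]
    refine (h4 P).congr fun n => ?_
    rw [height_eq]
    rfl
  · exact Pool.Agent.TH942.exists_basis (Pool.Agent.TH942.sfg hD)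
  · have e1 : Nonempty {t : Points a b // IsOfFinAddOrder t} := ⟨⟨0, IsOfFinAddOrder.zero⟩⟩
    have e2 : Finite {t : Points a b // IsOfFinAddOrder t} := by
      have : {t : Points a b | IsOfFinAddOrder t} ⊆
          {P | Pool.Agent.TH942.sht (a := (a : ℚ)) (b := (b : ℚ)) P ≤ C} := by
        intro t ht
        have g9 := Pool.Agent.TH942.q_comb q h2 (ι := Fin 0) (fun i => i.elim0) t ht 0
        simp only [Finset.univ_eq_empty, Finset.sum_empty, zero_add] at g9
        have g10 := abs_le.1 (h3 t)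
        simp only [Set.mem_ofPred_eq]
        linarith
      exact ((Pool.Agent.TH942.sfinite_ht C).subset this).to_subtype
    exact Nat.card_pos
  · have h6 : Reg g = (Pool.Agent.TH942.gram q g).det := by
      unfold Reg Pool.Agent.TH942.gram pairing
      simp only [hq]
      rfl
    obtain ⟨h7, h8⟩ := h5 (Fin r) g hg
    rw [h6]
    refine ⟨(Pool.Agent.TH942.card_basis (A := Points a b) hg).trans (Fintype.card_fin r), h7, ?_⟩
    simp only [Fintype.card_fin] at h8
    refine (h8.comp Real.tendsto_log_atTop).congr' ?_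
    filter_upwards [eventually_ge_atTop 1] with X hX
    simp only [Function.comp_apply]
    have h9 : R a b X = Pool.Agent.TH942.ratCount a b X := rfl
    rw [h9, Pool.Agent.TH942.ratCount_eq hD hX]

theorem V_pos (r : ℕ) : 0 < V r := Pool.Agent.TH942.ballVol_pos r

theorem R_pos (x : ℝ) : 0 < ((R a b x : ℝ)) ^ 2 := by
  have e1 : (0 : ℝ) < (R a b x : ℝ) := by
    unfold R
    positivity
  positivity

/-- `R(X)² / (log X)^r → t² V_r² / Reg` -/
theorem R_sq (hΔ : 4 * a ^ 3 + 27 * b ^ 2 ≠ 0) {r : ℕ} {g : Fin r → Points a b}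
    (hg : IsBasis g) : Tendsto (fun X : ℝ => (R a b X : ℝ) ^ 2 / (Real.log X) ^ r) atTop
      (𝓝 ((numTorsion a b : ℝ) ^ 2 * V r ^ 2 / Reg g)) := by
  obtain ⟨-, -, -, h⟩ := neron' hΔ
  obtain ⟨-, h1, h2⟩ := h r g hg
  have h3 := h2.pow 2
  have h4 : (numTorsion a b * V r / √ (Reg g)) ^ 2 =
      (numTorsion a b : ℝ) ^ 2 * V r ^ 2 / Reg g := by
    rw [div_pow, mul_pow, Real.sq_sqrt h1.le]
  rw [h4] at h3
  refine h3.congr' ?_
  filter_upwards [eventually_gt_atTop 1] with X hX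
  have hT : 0 < Real.log X := Real.log_pos hX
  have e1 : (Real.log X ^ ((r : ℝ) / 2)) ^ 2 = Real.log X ^ r := by
    rw [← Real.rpow_natCast, ← Real.rpow_mul hT.le, ← Real.rpow_natCast]
    congr 1
    push_cast
    ring
  rw [div_pow, e1]

/-- **The constant of the leading-term formula is a limit point of the products of Birch and
Swinnerton-Dyer.** -/
theorem result (a b : ℤ) (hΔ : 4 * a ^ 3 + 27 * b ^ 2 ≠ 0) (F : ℂ → ℂ) (hF : IsLSeries a b F)
    (M : ℕ) [NeZero M] (f : CuspForm (Gamma0 M : Subgroup (GL (Fin 2) ℝ)) 2)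
    (hf : IsNewformOf a b M f) :
    ∃ (m : ℕ) (l : ℝ), analyticOrderAt F 1 = m ∧ 0 < l ∧
      ‖iteratedDeriv m F 1 / (m.factorial : ℂ)‖ = l ∧
      (NoRealZeros F → iteratedDeriv m F 1 / (m.factorial : ℂ) = (l : ℂ)) ∧
      -- the limes superior, for every curve
      (∀ c : ℝ, c < kappa m l → ∃ᶠ x : ℝ in atTop, c * (Real.log x) ^ m < P a b x) ∧
      -- the limit point
      (NoRealZeros F → ∃ x : ℕ → ℕ, StrictMono x ∧
        Tendsto (fun n => P a b (x n) / (Real.log (x n)) ^ m) atTop (𝓝 (kappa m l))) ∧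
      -- consequences of one-sided bounds
      (∀ (r : ℕ) (C : ℝ), (∀ᶠ x : ℝ in atTop, P a b x ≤ C * (Real.log x) ^ r) →
        NoZeros F ∧ m ≤ r ∧ (m = r → kappa r C ≤ l)) ∧
      (∀ (r : ℕ) (c : ℝ), 0 < c → NoRealZeros F →
        (∀ᶠ x : ℝ in atTop, c * (Real.log x) ^ r ≤ P a b x) → r ≤ m ∧ (m = r → l ≤ kappa r c)) ∧
      -- comparison with the rational points
      (∃ (r : ℕ) (g : Fin r → Points a b), IsBasis g) ∧
      ∀ (r : ℕ) (g : Fin r → Points a b), IsBasis g →
        Module.finrank ℤ (Points a b) = r ∧ 0 < Reg g ∧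
        ∀ A : ℝ, l = A * Reg g / (numTorsion a b : ℝ) ^ 2 →
          (∀ C : ℝ, (∀ᶠ x : ℝ in atTop, P a b x ≤ C * (R a b x : ℝ) ^ 2) →
            NoZeros F ∧ m ≤ r ∧ (m = r → kappa r (C * V r ^ 2) ≤ A)) ∧
          (∀ c : ℝ, 0 < c → NoRealZeros F →
            (∀ᶠ x : ℝ in atTop, c * (R a b x : ℝ) ^ 2 ≤ P a b x) →
            r ≤ m ∧ (m = r → A ≤ kappa r (c * V r ^ 2))) ∧
          (∀ c C : ℝ, 0 < c → (∀ᶠ x : ℝ in atTop, c * (R a b x : ℝ) ^ 2 ≤ P a b x ∧
              P a b x ≤ C * (R a b x : ℝ) ^ 2) →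
            NoZeros F ∧ m = r ∧ kappa r (C * V r ^ 2) ≤ A ∧ A ≤ kappa r (c * V r ^ 2)) ∧
          (NoRealZeros F → m = r → ∃ x : ℕ → ℕ, StrictMono x ∧
            Tendsto (fun n => P a b (x n) / (R a b (x n) : ℝ) ^ 2) atTop
              (𝓝 (kappa r (A * V r ^ 2)))) := by
  have hF' : Pool.Agent.W263.BSD.IsLSeries a b F := hF
  obtain ⟨m, hm⟩ : ∃ m : ℕ, analyticOrderAt F 1 = m :=
    Pool.Agent.W189.ML.order_finite_all hF' 1
  have hrs : Tendsto (Pool.Agent.W263.BSD.rsSum a b) atTop (𝓝 0) :=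
    (hecke hf).rsSum_tendsto hΔ fun p hp => hf.points p hp
  obtain ⟨hpos, -⟩ := Pool.Agent.W263.BSD.lead_limit hF.1 hm
  set l : ℝ := Pool.Agent.W263.BSD.leadAbs F m with hl
  have hk : Pool.Agent.X242.LB.kap F m = kappa m l := by
    unfold Pool.Agent.X242.LB.kap kappa
    rw [mul_div_assoc]
  have hkpos : 0 < kappa m l := by
    rw [← hk]
    exact Pool.Agent.X242.LB.kap_pos hF' hm
  -- the constants
  have hswap : ∀ (r : ℕ) (x y : ℝ), 0 < x → 0 < y → (kappa r x ≤ y ↔ kappa r y ≤ x) := by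
    intro r x y hx hy
    unfold kappa
    rw [div_le_iff₀ hx, div_le_iff₀ hy, mul_comm x y]
  have hswap' : ∀ (r : ℕ) (x y : ℝ), 0 < x → 0 < y → (x ≤ kappa r y ↔ y ≤ kappa r x) := by
    intro r x y hx hy
    unfold kappa
    rw [le_div_iff₀ hx, le_div_iff₀ hy, mul_comm x y]
  have hup : ∀ c : ℝ, c < kappa m l → ∃ᶠ x : ℝ in atTop, c * (Real.log x) ^ m < P a b x := by
    intro c hc
    rw [← hk] at hc
    exact Pool.Agent.X242.LB.up hΔ hrs hF' hm hc
  have hlim : NoRealZeros F → ∃ x : ℕ → ℕ, StrictMono x ∧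
      Tendsto (fun n => P a b (x n) / (Real.log (x n)) ^ m) atTop (𝓝 (kappa m l)) := by
    intro hne
    refine Pool.Agent.X242.LB.limit_point (a := a) (b := b) hkpos hup fun c hc => ?_
    rw [← hk] at hc
    exact Pool.Agent.X242.LB.down hΔ hrs hF' hne hm hc
  refine ⟨m, l, hm, hpos, ?_, fun hne => Pool.Agent.X242.LB.lead_real hF' hne hm, hup, hlim,
    fun r C h => ?_, fun r c hc hne h => ?_, (neron' hΔ).2.1, fun r g hg => ?_⟩
  · rw [norm_div, Complex.norm_natCast]
    rfl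
  · have h1 := Pool.Agent.X242.LB.of_upper hΔ hrs hF' hm h
    refine ⟨fun s hs => Pool.Agent.W263.BSD.no_zeros_of_order hF' h hs, h1.1, fun hmr => ?_⟩
    have h2 := h1.2 hmr
    rw [hk] at h2
    have hC : 0 < C := hkpos.trans_le h2
    rw [← hmr]
    exact (hswap m l C hpos hC).1 h2
  · have h1 := Pool.Agent.X242.LB.of_lower hΔ hrs hF' hne hm hc h
    refine ⟨h1.1, fun hmr => ?_⟩
    have h2 := h1.2 hmr
    rw [hk] at h2
    rw [← hmr]
    exact (hswap' m c l hc hpos).1 h2
  · obtain ⟨-, -, ht, hn⟩ := neron' hΔ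
    obtain ⟨h1, h2, -⟩ := hn r g hg
    have hR := R_sq hΔ hg
    have hV := V_pos r
    have ht' : (0 : ℝ) < numTorsion a b := by exact_mod_cast ht
    have hρ : 0 < (numTorsion a b : ℝ) ^ 2 * V r ^ 2 / Reg g := by positivity
    refine ⟨h1, h2, fun A hA => ?_⟩
    have hA0 : 0 < A := by
      rw [hA] at hpos
      by_contra hneg
      push Not at hneg
      have : A * Reg g / (numTorsion a b : ℝ) ^ 2 ≤ 0 :=
        div_nonpos_of_nonpos_of_nonneg (mul_nonpos_of_nonpos_of_nonneg hneg h2.le) (by positivity)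
      linarith
    -- the constants for the rational points
    have hconv : m = r → kappa m l =
        kappa r (A * V r ^ 2) * ((numTorsion a b : ℝ) ^ 2 * V r ^ 2 / Reg g) := by
      rintro rfl
      unfold kappa
      rw [hA]
      field_simp
    have cu : ∀ C : ℝ, (∀ᶠ x : ℝ in atTop, P a b x ≤ C * (R a b x : ℝ) ^ 2) →
        NoZeros F ∧ m ≤ r ∧ (m = r → kappa r (C * V r ^ 2) ≤ A) := by
      intro C h
      obtain ⟨g1, g2, g3⟩ := Pool.Agent.X242.LB.of_upper_R (R := fun x => (R a b x : ℝ) ^ 2) hΔ hrs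
        hF' hm hR hρ R_pos h
      refine ⟨g1, g2, fun hmr => ?_⟩
      have g4 := g3 hmr
      rw [hk, hconv hmr] at g4
      have g5 := le_of_mul_le_mul_right g4 hρ
      have hk2 : 0 < kappa r (A * V r ^ 2) := by unfold kappa; positivity
      have hC : 0 < C := hk2.trans_le g5
      unfold kappa at g5 ⊢
      rw [div_le_iff₀ (by positivity)] at g5 ⊢
      calc _ ≤ C * (A * V r ^ 2) := g5
        _ = _ := by ring
    have cl : ∀ c : ℝ, 0 < c → NoRealZeros F →
        (∀ᶠ x : ℝ in atTop, c * (R a b x : ℝ) ^ 2 ≤ P a b x) →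
        r ≤ m ∧ (m = r → A ≤ kappa r (c * V r ^ 2)) := by
      intro c hc hne h
      obtain ⟨g2, g3⟩ := Pool.Agent.X242.LB.of_lower_R (R := fun x => (R a b x : ℝ) ^ 2) hΔ hrs
        hF' hne hm hR hρ hc h
      refine ⟨g2, fun hmr => ?_⟩
      have g4 := g3 hmr
      rw [hk, hconv hmr] at g4
      have g5 := le_of_mul_le_mul_right g4 hρ
      unfold kappa at g5 ⊢
      rw [le_div_iff₀ (by positivity)] at g5 ⊢
      calc A * (c * V r ^ 2) = c * (A * V r ^ 2) := by ring
        _ ≤ _ := g5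
    refine ⟨cu, cl, fun c C hc h => ?_, fun hne hmr => ?_⟩
    · obtain ⟨g1, g2, g3⟩ := cu C (h.mono fun x hx => hx.2)
      have hne : NoRealZeros F := fun s hs => g1 s (by simpa using hs)
      obtain ⟨g4, g5⟩ := cl c hc hne (h.mono fun x hx => hx.1)
      have hmr : m = r := le_antisymm g2 g4
      exact ⟨g1, hmr, g3 hmr, g5 hmr⟩
    · obtain ⟨x, hx1, hx2⟩ := hlim hne
      refine ⟨x, hx1, ?_⟩
      have h3 := hR.comp (tendsto_natCast_atTop_atTop.comp hx1.tendsto_atTop)
      have h4 := hx2.div h3 hρ.ne'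
      rw [hconv hmr, mul_div_assoc, div_self hρ.ne', mul_one] at h4
      refine h4.congr' ?_
      have h5 : ∀ᶠ n : ℕ in atTop, (3 : ℕ) ≤ x n := hx1.tendsto_atTop.eventually_ge_atTop 3
      filter_upwards [h5] with n hn
      have e1 : (3 : ℝ) ≤ (x n : ℝ) := by exact_mod_cast hn
      have e2 : Real.log (x n : ℝ) ≠ 0 := (Real.log_pos (by linarith)).ne'
      have e3 : ((R a b (x n) : ℝ)) ^ 2 ≠ 0 := (R_pos _).ne'
      simp only [Pi.div_apply, Function.comp_apply]
      rw [hmr]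
      field_simp

end Pool.Agent.Results.MP_92892c_nt.ProductsBracketLeadingTerm
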