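import Mathlib
import Pool.Agent.X99.C49.Jnt

/-!
# The 2-part of the leading-term formula for many twists of `X_0(49)` at the same time

`E_D` is the quadratic twist by `D` of `X_0(49) : y² + x y = x³ - x² - 2 x - 1` over `ℚ`, where `D`
runs through ALL the odd squarefree positive integers which are sums of two squares. The family is
closed under `star m D` = the squarefree part of `m D` (the twist of `E_D` by `m`). Let

`z(D) = L(E_D, 1) #E_D(ℚ)_tors² / (Ω(E_D) ∏ c_p)`,

which is zero or the order of `Ш(E_D)` according to the formula. For every `D` of the family exactly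
one of the following holds.

* `BothOdd`: `L(E_D, 1) ≠ 0`, `E_D(ℚ)` is finite, `Ш(E_D)[2^∞] = 0`, and `z(D)` is a unit at all the
  primes above two: the 2-part of the formula holds, and both its sides are odd.
* `BothEven`: `z(D)` is integral at the primes above two, and it is divisible by all of them (it is in
  the maximal ideal of every valuation ring of `ℂ` above two), and `E_D(ℚ)` is infinite or `Ш(E_D)` has
  an element of order two.

For any two finite disjoint subsets `G`, `K` of the family the curves `E_{star m D}` are in the case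
`BothOdd` for all `m ∈ G` and in the case `BothEven` for all `m ∈ K` for a proportion of exactly
`c^{#G} (1 - c)^{#K}` of the `D` of the family ordered by size, `c = ∏_{i ≥ 0} (1 - 2^{-(2 i + 1)})`:
the formulas modulo two for the different twists of `E_D` are asymptotically independent.

Proof. The values and the descent are those of the teams of `Pool/Agent/Y698`, carried over to `ℚ` in
`Pool/Agent/X99/C49`. The joint law is `Pool/Agent/X99/GJ`: for matrices of quadratic residue symbols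
with rows indexed by the prime factors of `D` in arbitrary classes modulo an arbitrary `N`, and the
submatrices belonging to the numbers `star m D`; it generalises project JQ (joint law modulo `56`, helpers
697, 362, 405, 514 and 687), whose linear algebra it uses.
-/

set_option autoImplicit false

open Finset NumberField IsDedekindDomain WeierstrassCurve MeasureTheory

namespace Pool.Agent.Results.MP_92892c_nt.SimultaneousSumsOfTwoSquares

open Pool.Agent.TH841.SH.D (Sha)
open Pool.Agent.TH841.SH.D (Pt)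

/-- For `D ≡ 1 mod 4` the quadratic twist by `D` of the elliptic curve
`X_0(49) : y² + x y = x³ - x² - 2 x - 1`:
the curve `y² + x y = x³ - (3 D + 1) / 4 x² - 2 D² x - D³`. -/
def twist (D : ℕ) : WeierstrassCurve ℤ := ⟨1, -((3 * D + 1) / 4), 0, -2 * D ^ 2, -D ^ 3⟩

/-- The curve given by the equation of `W` over `ℚ`. -/
abbrev base (W : WeierstrassCurve ℤ) : WeierstrassCurve ℚ := W.map (Int.castRingHom ℚ)

/-- The equation is minimal at the prime `v`: no change of variables over `ℚ` that keeps the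
coefficients integral at `v` decreases the order of the discriminant. -/
def MinimalAt (W : WeierstrassCurve ℚ) (v : HeightOneSpectrum (𝓞 ℚ)) : Prop :=
  ∀ C : VariableChange ℚ, v.valuation ℚ (C • W).a₁ ≤ 1 → v.valuation ℚ (C • W).a₂ ≤ 1 →
    v.valuation ℚ (C • W).a₃ ≤ 1 → v.valuation ℚ (C • W).a₄ ≤ 1 → v.valuation ℚ (C • W).a₆ ≤ 1 →
    v.valuation ℚ (C • W).Δ ≤ v.valuation ℚ W.Δ

/-- `W⁰(ℚ_v)`, the group of the points of `W` over the completion `ℚ_v` with nonsingular reduction:
the point at infinity and the points `(x, y)` where `x` is not integral, or one of the partial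
derivatives of `y² + a₁ x y + a₃ y - x³ - a₂ x² - a₄ x - a₆` is a unit at `(x, y)`.
Here `Pt W ℚ_v` is the group of the points of `W` over `ℚ_v`. -/
noncomputable def nonsing (W : WeierstrassCurve ℚ) (v : HeightOneSpectrum (𝓞 ℚ)) :
    AddSubgroup (Pt W (v.adicCompletion ℚ)) :=
  AddSubgroup.closure {P | ∀ x y h, P = Affine.Point.some x y h →
    1 < Valued.v x ∨
    Valued.v ((W.baseChange (v.adicCompletion ℚ)).a₁ * y -
      (3 * x ^ 2 + 2 * (W.baseChange (v.adicCompletion ℚ)).a₂ * x +
        (W.baseChange (v.adicCompletion ℚ)).a₄)) = 1 ∨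
    Valued.v (2 * y + (W.baseChange (v.adicCompletion ℚ)).a₁ * x +
      (W.baseChange (v.adicCompletion ℚ)).a₃) = 1}

/-- The Tamagawa number `c_v = [W(ℚ_v) : W⁰(ℚ_v)]` of a minimal equation. -/
noncomputable def c (W : WeierstrassCurve ℚ) (v : HeightOneSpectrum (𝓞 ℚ)) : ℕ :=
  (nonsing W v).index

/-- The product of the Tamagawa numbers. -/
noncomputable def Tam (W : WeierstrassCurve ℚ) : ℕ := ∏ᶠ v : HeightOneSpectrum (𝓞 ℚ), c W v

/-- The 2-primary part of the Tate-Shafarevich group. -/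
def Sha2 (W : WeierstrassCurve ℚ) : Set (Sha W) := {x | ∃ n : ℕ, 2 ^ n • x = 0}

/-- `4 x³ + b₂ x² + 2 b₄ x + b₆ = (2 y + a₁ x + a₃)²`. -/
def cubic (W : WeierstrassCurve ℤ) (x : ℝ) : ℝ :=
  4 * x ^ 3 + W.b₂ * x ^ 2 + 2 * W.b₄ * x + W.b₆

/-- `Ω = ∫_{W(ℝ)} |ω|` with `ω = dx / (2 y + a₁ x + a₃)`, as an integral over `x`: two real points lie
over each `x` with `cubic x > 0`. -/
noncomputable def Omega (W : WeierstrassCurve ℤ) : ℝ :=
  2 * ∫ x in {x : ℝ | 0 < cubic W x}, 1 / √(cubic W x)

open Classical in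
/-- The order of the torsion subgroup of `W(ℚ)`. -/
noncomputable def torsOrder (W : WeierstrassCurve ℤ) : ℕ :=
  Nat.card (AddCommGroup.torsion (base W).toAffine.Point)

/-- The order of the Tate-Shafarevich group predicted by the formula (in the case of rank zero), for a
curve with an equation that is minimal at all primes and the value `l` of its L-function at `s = 1`:
`l #W(ℚ)_tors² / (Ω ∏ c_p)`. -/
noncomputable def anOrder (W : WeierstrassCurve ℤ) (l : ℂ) : ℂ :=
  l * (torsOrder W : ℂ) ^ 2 / ((Omega W : ℝ) * (Tam (base W) : ℂ))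

/-- the family: all the odd squarefree sums of two squares -/
def Family (D : ℕ) : Prop := Squarefree D ∧ Odd D ∧ ∃ x y : ℕ, D = x ^ 2 + y ^ 2

/-- `E_D(ℚ)` is finite and `Ш(E_D)` has no element of order two -/
def FiniteShaTwo (D : ℕ) : Prop :=
  Finite (base (twist D)).toAffine.Point ∧ ∀ x : Sha (base (twist D)), x + x = 0 → x = 0

/-- `Λ` is the analytic continuation to the complex plane of the L-function of `E_D` -/
def IsLFunction (D : ℕ) (Λ : ℂ → ℂ) : Prop :=
  Differentiable ℂ Λ ∧ ∀ s : ℂ, 2 < s.re → Λ s = (base (twist D)).LSeries s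

/-- Both sides of the formula are odd: `E_D(ℚ)` is finite, `Ш(E_D)[2^∞] = 0`, `L(E_D, 1) ≠ 0`, and
`z(D)` is a unit for all the valuations of `ℂ` above two. -/
def BothOdd (D : ℕ) : Prop :=
  Finite (base (twist D)).toAffine.Point ∧ Sha2 (base (twist D)) = {0} ∧
    ∃ Λ : ℂ → ℂ, IsLFunction D Λ ∧ Λ 1 ≠ 0 ∧
      ∀ (Γ : Type) [LinearOrderedCommGroupWithZero Γ] (v : Valuation ℂ Γ), v 2 < 1 →
        v (anOrder (twist D) (Λ 1)) = 1

/-- Both sides of the formula are even: `E_D(ℚ)` is infinite or `Ш(E_D)` has an element of order two,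
and `z(D)` is integral and not a unit for all the valuations of `ℂ` above two. -/
def BothEven (D : ℕ) : Prop :=
  (Infinite (base (twist D)).toAffine.Point ∨ ∃ x : Sha (base (twist D)), x ≠ 0 ∧ x + x = 0) ∧
    ∃ Λ : ℂ → ℂ, IsLFunction D Λ ∧
      ∀ (Γ : Type) [LinearOrderedCommGroupWithZero Γ] (v : Valuation ℂ Γ), v 2 < 1 →
        v (anOrder (twist D) (Λ 1)) < 1

/-- the squarefree part of the product of two squarefree numbers -/
def star (m D : ℕ) : ℕ := m * D / (Nat.gcd m D) ^ 2

open Classical in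
/-- the number of the `D ≤ X` of the family with the property `Q` -/
noncomputable def count (Q : ℕ → Prop) (X : ℕ) : ℕ := ((Icc 1 X).filter fun D => Family D ∧ Q D).card

section proof

open Pool.Agent.Y698

lemma base_eq {D j : ℕ} (hj : D = 1 + 4 * j) : base (twist D) = AX ℚ j :=
  twZ_map hj ℚ

lemma cubic_eq {D j : ℕ} (hj : D = 1 + 4 * j) (x : ℝ) :
    cubic (twist D) x = psD (1 + 4 * j) x := by
  have h1 : (3 * (D : ℤ) + 1) / 4 = 1 + 3 * j := by
    rw [hj]
    push_cast
    omega
  unfold cubic twist WeierstrassCurve.b₂ WeierstrassCurve.b₄ WeierstrassCurve.b₆ psD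
  simp only
  rw [h1, hj]
  push_cast
  ring

lemma real_eq {D j : ℕ} (hj : D = 1 + 4 * j) : Omega (twist D) =
    ∫ x in {x : ℝ | 0 < psD (1 + 4 * j) x}, 2 / Real.sqrt (psD (1 + 4 * j) x) := by
  unfold Omega
  simp only [cubic_eq hj]
  rw [← integral_const_mul]
  congr 1
  funext x
  ring

lemma tn_eq {D j : ℕ} (hj : D = 1 + 4 * j) :
    torsOrder (twist D) = Pool.Agent.Y698.SG.tnum (Pool.Agent.Y698.AX ℚ j) := by
  have key : ∀ (W : WeierstrassCurve ℚ) (i1 i2 : DecidableEq ℚ),
      Nat.card (@AddCommGroup.torsion W.toAffine.Point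
        (@Affine.Point.instAddCommGroup ℚ _ W.toAffine i1)) =
      Nat.card (@AddCommGroup.torsion W.toAffine.Point
        (@Affine.Point.instAddCommGroup ℚ _ W.toAffine i2)) := by
    intro W i1 i2
    rw [Subsingleton.elim i1 i2]
  unfold torsOrder Pool.Agent.Y698.SG.tnum
  rw [base_eq hj]
  exact key _ _ _

lemma an_eq {D j : ℕ} (hj : D = 1 + 4 * j) (l : ℂ) :
    anOrder (twist D) l = Pool.Agent.Y698.SG.quoT ℚ j l := by
  have h1 : InfinitePlace.nrRealPlaces ℚ = 1 :=
    InfinitePlace.nrRealPlaces_eq_one_of_finrank_eq_one (Module.finrank_self ℚ)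
  have h2 : InfinitePlace.nrComplexPlaces ℚ = 0 := by
    have := InfinitePlace.card_add_two_mul_card_eq_rank ℚ
    rw [Module.finrank_self] at this
    omega
  have hd : NumberField.discr ℚ = 1 := Rat.numberField_discr
  unfold anOrder
  rw [tn_eq hj, base_eq hj, real_eq hj]
  unfold Pool.Agent.Y698.SG.quoT
  have hT : Tam (Pool.Agent.Y698.AX ℚ j) = ∏ᶠ v, Pool.Agent.Y698.tam (Pool.Agent.Y698.AX ℚ j) v := rfl
  rw [hT, h1, h2, hd]
  generalize (∏ᶠ v, Pool.Agent.Y698.tam (Pool.Agent.Y698.AX ℚ j) v : ℕ) = t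
  simp only [Int.cast_one, abs_one, Real.sqrt_one, Complex.ofReal_one, mul_one, pow_one, pow_zero]

end proof

open Pool.Agent.X99.C49 in
/-- the values at the valuations above two -/
lemma vals {D : ℕ} (h : Fam D) : ∃ Λ : ℂ → ℂ, IsLFunction D Λ ∧
    ∀ (Γ : Type) [LinearOrderedCommGroupWithZero Γ] (v : Valuation ℂ Γ), v 2 < 1 →
      v (anOrder (twist D) (Λ 1)) ≤ 1 ∧ (v (anOrder (twist D) (Λ 1)) = 1 ↔ FiniteShaTwo D) := by
  obtain ⟨j, hj⟩ : ∃ j, D = 1 + 4 * j := ⟨D / 4, by have := fam4 h; omega⟩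
  have hprod : ∏ q ∈ IP D ∪ SPr D, q = 1 + 4 * j := by
    rw [← hj]
    exact Mn_eq h
  obtain ⟨Λ, h1, -, h3, h5⟩ := level_Q (inq h) (spl h) hprod
  have hcr : FiniteShaTwo D ↔ Pool.Agent.X99.GQ.Gd P28 n4 D.primeFactors := crit' h
  refine ⟨Λ, ⟨h1, ?_⟩, ?_⟩
  · rw [base_eq hj]
    exact h3
  · intro Γ _ v hv
    rw [an_eq hj, hcr, gd_iff h]
    exact h5 Γ v hv

open Pool.Agent.X99.C49 in
/-- the alternative -/
lemma dich {D : ℕ} (h : Fam D) : (BothOdd D ↔ FiniteShaTwo D) ∧ (BothEven D ↔ ¬ FiniteShaTwo D) := by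
  have hcr : FiniteShaTwo D ↔ Pool.Agent.X99.GQ.Gd P28 n4 D.primeFactors := crit' h
  obtain ⟨Λ, hL, hv⟩ := vals h
  have hz : ∀ x : ℂ, x = 0 → anOrder (twist D) x = 0 := by
    rintro x rfl
    unfold anOrder
    rw [zero_mul, zero_div]
  refine ⟨⟨?_, fun hF => ⟨hF.1, ?_, Λ, hL, ?_, fun Γ _ v hv2 => ((hv Γ v hv2).2).2 hF⟩⟩, ?_, ?_⟩
  · rintro ⟨h1, h2, -⟩
    refine ⟨h1, fun x hx => ?_⟩
    have h3 : x ∈ Sha2 (base (twist D)) := ⟨1, by rw [pow_one, two_nsmul]; exact hx⟩
    rw [h2] at h3
    exact h3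
  · apply Set.eq_singleton_iff_unique_mem.2
    refine ⟨⟨0, smul_zero _⟩, ?_⟩
    rintro x ⟨l, hl⟩
    exact sha2_zero h (hcr.1 hF) l x hl
  · intro h0
    refine Pool.Agent.Y698.SG.exists_val2 fun Γ _ v hv2 => ?_
    have h6 := ((hv Γ v hv2).2).2 hF
    rw [hz _ h0, map_zero] at h6
    exact zero_ne_one h6
  · rintro ⟨h1, -⟩ hF
    rcases h1 with h1 | ⟨x, hx0, hx⟩
    · exact not_finite_iff_infinite.2 h1 hF.1
    · exact hx0 (hF.2 x hx)
  · intro hF
    refine ⟨?_, Λ, hL, fun Γ _ v hv2 => ?_⟩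
    · by_contra hcon
      rw [not_or] at hcon
      refine hF ⟨not_infinite_iff_finite.1 hcon.1, fun x hx => ?_⟩
      by_contra hx0
      exact hcon.2 ⟨x, hx0, hx⟩
    · obtain ⟨k1, k2⟩ := hv Γ v hv2
      exact lt_of_le_of_ne k1 fun h0 => hF (k2.1 h0)

open Pool.Agent.X99.C49 in
/-- **Main theorem.**
(1) For every `D` of the family the equation of `E_D` is minimal at all primes, and exactly one of
`BothOdd` (the 2-part of the leading-term formula, with `L(E_D, 1) ≠ 0` and `Ш(E_D)[2^∞] = 0`) and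
`BothEven` (both sides of the formula are even) holds.
(2) The family is closed under the operation `star` of twisting.
(3) For all the finite disjoint subsets `G`, `K` of the family, `BothOdd` holds for all the curves
`E_{star m D}`, `m ∈ G`, and `BothEven` holds for all the curves `E_{star m D}`, `m ∈ K`, for a proportion
of exactly `c^{#G} (1 - c)^{#K}` of the `D` of the family, `c = ∏_{i ≥ 0} (1 - 2^{-(2 i + 1)})`. -/
theorem result :
    (∀ D : ℕ, Family D → (∀ v : HeightOneSpectrum (𝓞 ℚ), MinimalAt (base (twist D)) v) ∧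
      (BothOdd D ∨ BothEven D) ∧ ¬ (BothOdd D ∧ BothEven D)) ∧
    (∀ m D : ℕ, Family m → Family D → Family (star m D) ∧
      ∃ k : ℕ, k ≠ 0 ∧ m * D = star m D * k ^ 2) ∧
    ∃ c : ℝ, 0.4194 < c ∧ c < 0.4195 ∧ c = ∏' i : ℕ, (1 - (1 / 2 : ℝ) ^ (2 * i + 1)) ∧
      ∀ G K : Finset ℕ, (∀ m ∈ G, Family m) → (∀ m ∈ K, Family m) → Disjoint G K →
        Filter.Tendsto (fun X : ℕ => (count (fun D => (∀ m ∈ G, BothOdd (star m D)) ∧
            ∀ m ∈ K, BothEven (star m D)) X : ℝ) / (count (fun _ => True) X : ℝ))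
          Filter.atTop (nhds (c ^ G.card * (1 - c) ^ K.card)) := by
  obtain ⟨-, -, -, hc1, hc2⟩ := Pool.Agent.Y948.CQ.t_C2
  refine ⟨fun D hF => ?_, fun m D hm hD => ?_, Pool.Agent.Y703.CQ.c2, hc1, hc2, rfl, ?_⟩
  · have h := (fam_two D).1 hF
    obtain ⟨j, hj⟩ : ∃ j, D = 1 + 4 * j := ⟨D / 4, by have := fam4 h; omega⟩
    have hprod : ∏ q ∈ IP D ∪ SPr D, q = 1 + 4 * j := by
      rw [← hj]
      exact Mn_eq h
    obtain ⟨d1, -, -⟩ := data_Q (inq h) (spl h) hprod
    obtain ⟨e1, e2⟩ := dich h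
    refine ⟨?_, ?_, ?_⟩
    · rw [base_eq hj]
      exact d1
    · rw [e1, e2]
      exact Classical.em _
    · rw [e1, e2]
      exact fun h => h.2 h.1
  · have h1 := (fam_two m).1 hm
    have h2 := (fam_two D).1 hD
    exact ⟨(fam_two _).2 (fam_star h1 h2), (Pool.Agent.X99.GJ.star_pf h1.1 h2.1).2.2⟩
  · intro G K hG hK hd
    have hG' : ∀ m ∈ G, Fam m := fun m hm => (fam_two m).1 (hG m hm)
    have hK' : ∀ m ∈ K, Fam m := fun m hm => (fam_two m).1 (hK m hm)
    have hj := joint28 FiniteShaTwo (fun D h => crit' h) G K hG' hK' hd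
    refine hj.congr fun X => congrArg₂ (fun a b : ℕ => (a : ℝ) / (b : ℝ)) ?_ ?_
    · refine Pool.Agent.X99.GJ.fc _ fun D _ => ?_
      rw [← fam_two D]
      refine and_congr_right fun hD => ?_
      have hD' := (fam_two D).1 hD
      refine and_congr (forall_congr' fun m => forall_congr' fun hm => ?_)
        (forall_congr' fun m => forall_congr' fun hm => ?_)
      · exact (dich (fam_star (hG' m hm) hD')).1.symm
      · exact (dich (fam_star (hK' m hm) hD')).2.symm
    · refine Pool.Agent.X99.GJ.fc _ fun D _ => ?_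
      rw [← fam_two D, and_true]
      exact Iff.rfl

end Pool.Agent.Results.MP_92892c_nt.SimultaneousSumsOfTwoSquares
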