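import Pool.Agent.Y17.X.TwoP
import Pool.Agent.Y17.X.Joint
import Pool.Agent.Y17.X.Low
import Pool.Agent.Y687.JQ.Fin
import Pool.Agent.Y948.CQ.C2
import Pool.Agent.Y682.YQ.BsdB

/-!
# The 2-part of the leading-term formula for many quadratic twists at the same time

`E^D` is the quadratic twist by `D` of the modular curve `X_0(14)` (no complex multiplication).  The
class consists of the squarefree `D`, positive and negative, `D = 1` modulo `4`, `D` a square modulo
`7`, whose prime divisors are different from `3` and are either split completely in `ℚ(i, √2, √-7)` or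
inert in `ℚ(√2)` and in `ℚ(√-7)`.  It is closed under `star m D` = the squarefree part of `m D`.

For every `D ≠ 1` of the class the leading-term formula holds modulo two: either both sides are units at
`2` (rank zero, `Ш[2^∞] = 0`, and `L(E^D, 1)/Ω` is a nonzero rational number with the 2-adic valuation of
`∏ c_p / (#E^D(ℚ)_tors)²`, which is the 2-part of the formula), or both are not (`L(E^D, 1)/Ω` is
`∏ c_p / (#E^D(ℚ)_tors)²` times a 2-adic unit times the square of an EVEN integer, and `E^D(ℚ)` is infinite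
or `Ш[2] ≠ 0`).

For any finite disjoint sets `G`, `K` of the class the first case occurs for all the twists
`E^{star m D}`, `m ∈ G`, and the second case for all `m ∈ K`, for a proportion of exactly
`c^{#G} (1 - c)^{#K}` of the positive `D` of the class, and also of the negative `D`,
`c = ∏_{i ≥ 0} (1 - 2^{-(2 i + 1)}) = 0.419...`: the 2-parts of the formulas for the twists of `E^D` are
asymptotically independent.
-/

set_option autoImplicit false
set_option linter.style.haveILetI false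

open MeasureTheory Filter Topology Finset

namespace Pool.Agent.Results.MP_92892c_nt.SimultaneousTwoPart

open scoped Classical

open Pool.Agent.TH841.SH.D (Sha)

/-- The quadratic twist `E^D` of `X_0(14)` (`D = 1` modulo `4`), with its global minimal equation
`y² + x y + y = x³ + ((D - 1)/4) x² + ((9 D² - 1)/2) x - (23 D³ + 1)/4`.  It is isomorphic to
`Y² = X (X² + 13 D X + 128 D²)` by `X = 4 (x - D)`, `Y = 4 (2 y + x + 1)`. -/
def twist (D : ℤ) : WeierstrassCurve ℤ :=
  ⟨1, (D - 1) / 4, 1, (9 * D ^ 2 - 1) / 2, -((23 * D ^ 3 + 1) / 4)⟩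

/-- `W` is a global minimal Weierstrass equation: `Δ ≠ 0` and `|Δ|` is minimal among the integral
Weierstrass equations of the same curve over `ℚ`. -/
def IsGloballyMinimal (W : WeierstrassCurve ℤ) : Prop :=
  W.Δ ≠ 0 ∧ ∀ (W' : WeierstrassCurve ℤ) (C : WeierstrassCurve.VariableChange ℚ),
    C • (W.map (Int.castRingHom ℚ)) = W'.map (Int.castRingHom ℚ) → |W.Δ| ≤ |W'.Δ|

/-- The number of the affine points modulo `l`. -/
noncomputable def pts (W : WeierstrassCurve ℤ) (l : ℕ) : ℕ :=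
  Nat.card {P : ZMod l × ZMod l //
    (W.map (Int.castRingHom (ZMod l))).toAffine.Equation P.1 P.2}

/-- `a_l = l + 1 - #W(𝔽_l)`, the points of the reduction of `W` modulo `l` counted with the point at
infinity and the possible singular point.  (For a minimal equation this is `0`, `1`, `-1` if the
reduction is additive, split or nonsplit multiplicative.) -/
noncomputable def a (W : WeierstrassCurve ℤ) (l : ℕ) : ℤ := l - pts W l

/-- `L` is the analytic continuation to the complex plane of the Hasse-Weil `L`-function of `W`. -/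
def IsLFunction (W : WeierstrassCurve ℤ) (L : ℂ → ℂ) : Prop :=
  Differentiable ℂ L ∧ ∀ s : ℂ, 3 / 2 < s.re →
    HasProd (fun p : Nat.Primes => (1 - (a W p : ℂ) * ((p : ℕ) : ℂ) ^ (-s) +
      (if ((p : ℕ) : ℤ) ∣ W.Δ then 0 else ((p : ℕ) : ℂ) ^ (1 - 2 * s)))⁻¹) (L s)

/-- `4 x³ + b₂ x² + 2 b₄ x + b₆ = (2 y + a₁ x + a₃)²` as a function of `x`. -/
noncomputable def cubic (W : WeierstrassCurve ℤ) (x : ℝ) : ℝ :=
  4 * x ^ 3 + W.b₂ * x ^ 2 + 2 * W.b₄ * x + W.b₆

/-- The real period `Ω⁺ = ∫_{W(ℝ)} |ω|` of `ω = dx / (2 y + a₁ x + a₃)` (the number of the components of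
`W(ℝ)` times the period over a generator of `H_1(W(ℂ), ℤ)⁺`), as an integral over `x`: two real points
lie over every `x` with `cubic W x > 0`. -/
noncomputable def Omega (W : WeierstrassCurve ℤ) : ℝ :=
  ∫ x in {x : ℝ | 0 < cubic W x}, 2 / Real.sqrt (cubic W x)

/-- `(x, y)` is integral and reduces to a singular point modulo `p`: both partial derivatives of
`y² + a₁ x y + a₃ y - x³ - a₂ x² - a₄ x - a₆` vanish modulo `p`. -/
def SingularReduction (W : WeierstrassCurve ℤ) (p : ℕ) [Fact p.Prime] (x y : ℚ_[p]) : Prop :=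
  ‖x‖ ≤ 1 ∧ ‖y‖ ≤ 1 ∧ ‖W.a₁ * y - (3 * x ^ 2 + 2 * W.a₂ * x + W.a₄)‖ < 1 ∧
    ‖2 * y + W.a₁ * x + W.a₃‖ < 1

/-- `E_0(ℚ_p)`, the group of the points over `ℚ_p` with nonsingular reduction. -/
noncomputable def nonsing (W : WeierstrassCurve ℤ) (p : ℕ) [Fact p.Prime] :
    AddSubgroup (W.map (Int.castRingHom ℚ_[p])).toAffine.Point :=
  AddSubgroup.closure {P | ∀ (x y : ℚ_[p]) (h), P = .some x y h → ¬ SingularReduction W p x y}

/-- The Tamagawa number `c_p = [E(ℚ_p) : E_0(ℚ_p)]` of a minimal equation. -/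
noncomputable def c (W : WeierstrassCurve ℤ) (p : ℕ) [Fact p.Prime] : ℕ := (nonsing W p).index

/-- The product of the Tamagawa numbers at the primes that divide the discriminant (these are the
primes that divide the conductor if the equation is minimal). -/
noncomputable def Tam (W : WeierstrassCurve ℤ) : ℕ :=
  ∏ p ∈ W.Δ.natAbs.primeFactors, if h : p.Prime then (haveI := Fact.mk h; c W p) else 1

/-- The curve over `ℚ`. -/
abbrev overQ (W : WeierstrassCurve ℤ) : WeierstrassCurve ℚ := W.map (Int.castRingHom ℚ)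

/-- The order of the group of the torsion points over `ℚ`. -/
noncomputable def tors (W : WeierstrassCurve ℤ) : ℕ :=
  Nat.card (AddCommGroup.torsion (overQ W).toAffine.Point)

/-- `q = L(W, 1) / Ω⁺`, and the `L`-function is entire: this `q` is `𝓛^an` if the rank is zero. -/
def IsCentral (W : WeierstrassCurve ℤ) (q : ℚ) : Prop :=
  ∃ L : ℂ → ℂ, IsLFunction W L ∧ 0 < Omega W ∧ L 1 = (((q : ℝ) * Omega W : ℝ) : ℂ)

/-- `∏ c_p / (#W(ℚ)_tors)²`: this is `𝓛^alg / #Ш(W)`. -/
noncomputable def alg (W : WeierstrassCurve ℤ) : ℚ := Tam W / (tors W : ℚ) ^ 2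

/-- `W(ℚ)` is finite, the 2-primary part of `Ш(W)` is zero, and the 2-part of the leading-term formula
holds: `𝓛^an = L(W, 1) / Ω⁺` is a nonzero rational number with the same 2-adic valuation as
`∏ c_p / (#W(ℚ)_tors)²`, that is, as `𝓛^alg` if `Ш(W)` is finite. -/
def TwoPart (W : WeierstrassCurve ℤ) : Prop :=
  Finite (overQ W).toAffine.Point ∧ (∀ (n : ℕ) (x : Sha (overQ W)), 2 ^ n • x = 0 → x = 0) ∧
    ∃ q : ℚ, q ≠ 0 ∧ IsCentral W q ∧ padicValRat 2 q = padicValRat 2 (alg W)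

/-- Both sides of the formula are even: `L(W, 1) / Ω⁺` is `∏ c_p / (#W(ℚ)_tors)²` times a rational number
of 2-adic valuation zero times the square of an even integer, and `W(ℚ)` is infinite or `Ш(W)` has an
element of order two. -/
def BothEven (W : WeierstrassCurve ℤ) : Prop :=
  (Infinite (overQ W).toAffine.Point ∨ ∃ x : Sha (overQ W), x ≠ 0 ∧ 2 • x = 0) ∧
    ∃ (w : ℚ) (y : ℤ), w ≠ 0 ∧ padicValRat 2 w = 0 ∧ Even y ∧ IsCentral W (w * y ^ 2 * alg W)

/-! ### The class of the twists -/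

/-- primes which split completely in `ℚ(i, √2, √-7)` -/
def Split (p : ℕ) : Prop := p.Prime ∧ p % 8 = 1 ∧ (p % 7 = 1 ∨ p % 7 = 2 ∨ p % 7 = 4)

/-- primes inert in `ℚ(√2)` and in `ℚ(√-7)` -/
def Inert (q : ℕ) : Prop :=
  q.Prime ∧ (q % 8 = 3 ∨ q % 8 = 5) ∧ (q % 7 = 3 ∨ q % 7 = 5 ∨ q % 7 = 6)

/-- the class of the discriminants -/
def Adm (D : ℤ) : Prop := Squarefree D ∧ D % 4 = 1 ∧ (D % 7 = 1 ∨ D % 7 = 2 ∨ D % 7 = 4) ∧
  ∀ p : ℕ, p.Prime → (p : ℤ) ∣ D → p ≠ 3 ∧ (Split p ∨ Inert p)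

/-- the squarefree part of the product of two squarefree numbers -/
def star (m D : ℤ) : ℤ := m * D / (Int.gcd m D : ℤ) ^ 2

/-- the number of the `D` in the class with `s D > 0`, `|D| ≤ X` and the property `Q` -/
noncomputable def count (s : ℤ) (Q : ℤ → Prop) (X : ℕ) : ℕ :=
  Nat.card {D : ℤ // |D| ≤ X ∧ Adm D ∧ 0 < s * D ∧ Q D}

theorem omega_pos {D : ℤ} (h4 : D % 4 = 1) : 0 < Omega (twist D) := by
  obtain ⟨s, L, Op, Om, hOp, hOm, g2, g3, hLt, hsym, hs⟩ := Pool.Agent.Y700.exists_symb2'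
  rcases lt_trichotomy D 0 with h | h | h
  · have e : Omega (twist D) = 2 * Om / Real.sqrt (-D) :=
      Pool.Agent.Z705.f_OMEGA L Op Om hOp hOm g2 g3 hLt D h4 h
    have hD0 : (0 : ℝ) < -(D : ℝ) := by
      have : (D : ℝ) < 0 := by exact_mod_cast h
      linarith
    rw [e]
    have := Real.sqrt_pos.2 hD0
    positivity
  · omega
  · have e : Omega (twist D) = 2 * Op / Real.sqrt D :=
      Pool.Agent.Y248.BSD14.t L Op Om hOp hOm g2 g3 hLt D h4 h
    have hD0 : (0 : ℝ) < (D : ℝ) := by exact_mod_cast h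
    rw [e]
    have := Real.sqrt_pos.2 hD0
    positivity

theorem tors_ne {D : ℤ} (h4 : D % 4 = 1) : tors (twist D) ≠ 0 := by
  have hM0 : D ≠ 0 := by omega
  have hM2 : 0 < D ^ 2 := by positivity
  have hab : (13 * D) ^ 2 - 4 * (128 * D ^ 2) < 0 := by nlinarith
  obtain ⟨k, hk, a3⟩ := Pool.Agent.Z702.f_TORS (13 * D) (128 * D ^ 2)
    (by positivity) hab.ne (Pool.Agent.Z702.ns_b hM0) (Pool.Agent.Z702.ns_ab hM0)
  rw [(Pool.Agent.Z702.trn_WM Pool.Agent.Z702.f_TRN h4).2.2] at a3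
  have e : tors (twist D) = 2 * k := a3
  rw [e]
  have : k ≠ 0 := by
    rintro rfl
    exact absurd hk (by decide)
  omega

/-- the alternative -/
theorem dich {D : ℤ} (hD : Adm D) (h1 : D ≠ 1) : IsGloballyMinimal (twist D) ∧
    (TwoPart (twist D) ↔ (Pool.Agent.Y687.MQ.matD D).det ≠ 0) ∧
    (TwoPart (twist D) ∨ BothEven (twist D)) ∧ ¬ (TwoPart (twist D) ∧ BothEven (twist D)) := by
  have hA : Pool.Agent.Y687.MQ.AdmD D := hD
  obtain ⟨⟨f, hf⟩, y, hy, hv⟩ := Pool.Agent.Y682.YQ.val hA h1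
  obtain ⟨-, w, hw0, hw, hf1⟩ := hv f hf
  have hz := Pool.Agent.Y682.YQ.zer_iff hA
  have h7 : ¬ (7 : ℤ) ∣ D := by
    have := hD.2.2.1
    omega
  have hΩ := omega_pos hD.2.1
  have ht := tors_ne hD.2.1
  obtain ⟨hT0, -⟩ := Pool.Agent.Y682.YQ.tam_val hA
  have hT0' : Tam (twist D) ≠ 0 := hT0
  have halg : alg (twist D) ≠ 0 := by
    unfold alg
    have h2 : (Tam (twist D) : ℚ) ≠ 0 := by exact_mod_cast hT0'
    have h3 : (tors (twist D) : ℚ) ≠ 0 := by exact_mod_cast ht
    exact div_ne_zero h2 (pow_ne_zero 2 h3)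
  have hcen : IsCentral (twist D) (w * y ^ 2 * alg (twist D)) := by
    refine ⟨f, hf, hΩ, ?_⟩
    rw [hf1]
    have e : ((w : ℝ) * (y : ℝ) ^ 2 * (Pool.Agent.Y700.Omega (Pool.Agent.Y700.WM D) *
        Pool.Agent.Y700.tamProd (Pool.Agent.Y700.WM D) /
        (Nat.card (AddCommGroup.torsion
          (Pool.Agent.Y700.EQ (Pool.Agent.Y700.WM D)).toAffine.Point) : ℝ) ^ 2) : ℝ) =
        ((w * y ^ 2 * alg (twist D) : ℚ) : ℝ) * Omega (twist D) := by
      unfold alg
      push_cast
      have e1 : Pool.Agent.Y700.Omega (Pool.Agent.Y700.WM D) = Omega (twist D) := rfl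
      have e2 : Pool.Agent.Y700.tamProd (Pool.Agent.Y700.WM D) = Tam (twist D) := rfl
      have e3 : Nat.card (AddCommGroup.torsion
          (Pool.Agent.Y700.EQ (Pool.Agent.Y700.WM D)).toAffine.Point) = tors (twist D) := rfl
      rw [e1, e2, e3]
      ring
    exact congrArg (fun r : ℝ => (r : ℂ)) e
  have htwo : TwoPart (twist D) → Pool.Agent.Y682.YQ.Zer D := by
    rintro ⟨k1, k2, -⟩
    refine ⟨k1, fun x hx => k2 1 x ?_⟩
    have e : (2 : ℕ) ^ 1 • x = x + x := by rw [pow_one, two_nsmul]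
    exact e.trans hx
  have hpos : Pool.Agent.Y682.YQ.Zer D → TwoPart (twist D) := by
    intro hZ
    have hyo := hy.2 hZ
    obtain ⟨-, t2, t3, -⟩ := (Pool.Agent.Y17.X.twoP_iff hA h1).2 (hz.1 hZ)
    have hy0 : (y : ℚ) ≠ 0 := by
      have : y ≠ 0 := by
        rintro rfl
        exact absurd hyo (by decide)
      exact_mod_cast this
    have hf2 : Fact (Nat.Prime 2) := ⟨Nat.prime_two⟩
    have hvy : padicValRat 2 (y : ℚ) = 0 := by
      rw [padicValRat.of_int]
      have : padicValInt 2 y = 0 := by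
        refine padicValInt.eq_zero_of_not_dvd ?_
        intro hd
        have h5 := Int.odd_iff.1 hyo
        omega
      rw [this]
      rfl
    refine ⟨t2, t3, w * y ^ 2 * alg (twist D),
      mul_ne_zero (mul_ne_zero hw0 (pow_ne_zero 2 hy0)) halg, hcen, ?_⟩
    rw [padicValRat.mul (mul_ne_zero hw0 (pow_ne_zero 2 hy0)) halg,
      padicValRat.mul hw0 (pow_ne_zero 2 hy0), padicValRat.pow, hw, hvy]
    simp
  have hneg : ¬ Pool.Agent.Y682.YQ.Zer D → BothEven (twist D) := by
    intro hZ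
    refine ⟨?_, w, y, hw0, hw, ?_, hcen⟩
    · by_contra hcon
      rw [not_or] at hcon
      refine hZ ⟨not_infinite_iff_finite.1 hcon.1, fun x hx => ?_⟩
      by_contra hx0
      have e : (2 : ℕ) • x = x + x := two_nsmul x
      exact hcon.2 ⟨x, hx0, e.trans hx⟩
    · rw [← Int.not_odd_iff_even]
      exact fun h => hZ (hy.1 h)
  refine ⟨(Pool.Agent.Y814.BSD14.t_MIN D hD.2.1 hD.1 h7).1, ⟨fun h => hz.1 (htwo h),
    fun h => hpos (hz.2 h)⟩, ?_, ?_⟩
  · by_cases hZ : Pool.Agent.Y682.YQ.Zer D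
    · exact Or.inl (hpos hZ)
    · exact Or.inr (hneg hZ)
  · rintro ⟨⟨k1, k2, -⟩, ⟨k3 | ⟨x, hx0, hx2⟩, -⟩⟩
    · exact not_finite_iff_infinite.2 k3 k1
    · refine hx0 (k2 1 x ?_)
      rw [pow_one]
      exact hx2

/-- two counting functions which differ by a bounded amount have the same density -/
theorem dens_congr {A B T : ℕ → ℕ} {N : ℕ} {x : ℝ} (h1 : ∀ X, A X ≤ B X + N)
    (h2 : ∀ X, B X ≤ A X + N) (hT : Tendsto T atTop atTop)
    (h : Tendsto (fun X => (A X : ℝ) / (T X : ℝ)) atTop (nhds x)) :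
    Tendsto (fun X => (B X : ℝ) / (T X : ℝ)) atTop (nhds x) := by
  have h3 : Tendsto (fun X => (N : ℝ) / (T X : ℝ)) atTop (nhds 0) :=
    Tendsto.div_atTop tendsto_const_nhds (tendsto_natCast_atTop_atTop.comp hT)
  have h4 : Tendsto (fun X => ((B X : ℝ) - A X) / (T X : ℝ)) atTop (nhds 0) := by
    refine squeeze_zero_norm (fun X => ?_) h3
    have k3 : (0 : ℝ) ≤ (T X : ℝ) := Nat.cast_nonneg _
    rw [Real.norm_eq_abs, abs_div, abs_of_nonneg k3]
    refine div_le_div_of_nonneg_right ?_ k3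
    have k1 : (A X : ℝ) ≤ B X + N := by exact_mod_cast h1 X
    have k2 : (B X : ℝ) ≤ A X + N := by exact_mod_cast h2 X
    rw [abs_le]
    constructor <;> linarith
  have h5 := h.add h4
  rw [add_zero] at h5
  refine h5.congr fun X => ?_
  rw [← add_div]
  congr 1
  ring

/-- **Main theorem.**
(1) For every `D ≠ 1` of the class the equation of `E^D` is a global minimal one, and exactly one of
`TwoPart` (the 2-part of the leading-term formula, with `L(E^D, 1) ≠ 0` and `Ш[2^∞] = 0`) and `BothEven`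
(both sides of the formula are even) holds for `E^D`.
(2) The class is closed under the operation `star` of twisting.
(3) For all finite disjoint subsets `G`, `K` of the class and both signs `s`, the property `TwoPart` holds
for all the curves `E^{star m D}`, `m ∈ G`, and `BothEven` holds for all the curves `E^{star m D}`, `m ∈ K`,
for a proportion of exactly `c^{#G} (1 - c)^{#K}` of the `D` of the class of sign `s`, ordered by absolute
value, `c = ∏_{i ≥ 0} (1 - 2^{-(2 i + 1)}) = 0.419...`; the number of these `D` with `|D| ≤ X` is at least a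
positive constant times `X (log X)^(-5/8)`. -/
theorem result :
    (∀ D : ℤ, Adm D → D ≠ 1 → IsGloballyMinimal (twist D) ∧
      (TwoPart (twist D) ∨ BothEven (twist D)) ∧ ¬ (TwoPart (twist D) ∧ BothEven (twist D))) ∧
    (∀ m D : ℤ, Adm m → Adm D → Adm (star m D) ∧ ∃ k : ℤ, k ≠ 0 ∧ m * D = star m D * k ^ 2) ∧
    ∃ c : ℝ, 0.4194 < c ∧ c < 0.4195 ∧
      Tendsto (fun n : ℕ => ∏ i ∈ range n, (1 - (1 / 2 : ℝ) ^ (2 * i + 1))) atTop (nhds c) ∧
      ∀ s : ℤ, (s = 1 ∨ s = -1) → ∀ G K : Finset ℤ, (∀ m ∈ G, Adm m) → (∀ m ∈ K, Adm m) →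
        Disjoint G K →
        Tendsto (fun X : ℕ => (count s (fun D => (∀ m ∈ G, TwoPart (twist (star m D))) ∧
            ∀ m ∈ K, BothEven (twist (star m D))) X : ℝ) /
          (count s (fun _ => True) X : ℝ)) atTop (nhds (c ^ G.card * (1 - c) ^ K.card)) ∧
        ∃ (a : ℝ) (X₀ : ℕ), 0 < a ∧ ∀ X : ℕ, X₀ ≤ X → a * (X * (Real.log X) ^ (-(5 / 8) : ℝ)) ≤
          (count s (fun D => (∀ m ∈ G, TwoPart (twist (star m D))) ∧
            ∀ m ∈ K, BothEven (twist (star m D))) X : ℝ) := by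
  obtain ⟨hC, -, -, hc1, hc2⟩ := Pool.Agent.Y948.CQ.t_C2
  refine ⟨fun D hD h1 => ⟨(dich hD h1).1, (dich hD h1).2.2⟩, fun m D hm hD =>
    ⟨(Pool.Agent.Y17.X.star_adm hm hD).1, ?_⟩, Pool.Agent.Y703.CQ.c2, hc1, hc2, ?_, ?_⟩
  · obtain ⟨g, a, b, hg, e1, e2, -, e3⟩ := Pool.Agent.Y17.X.star_eq D hm.1.ne_zero
    refine ⟨g, hg.ne', ?_⟩
    calc m * D = (g * a) * (g * b) := congrArg₂ (· * ·) e1 e2
      _ = a * b * g ^ 2 := by ring
      _ = star m D * g ^ 2 := congrArg (· * g ^ 2) e3.symm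
  · rw [tendsto_iff_norm_sub_tendsto_zero]
    refine squeeze_zero (fun n => norm_nonneg _) (fun n => ?_)
      (tendsto_pow_atTop_nhds_zero_of_lt_one (by norm_num : (0 : ℝ) ≤ 1 / 4)
        (by norm_num : (1 / 4 : ℝ) < 1))
    rw [Real.norm_eq_abs]
    exact hC n
  · intro s hs G K hG hK hd
    have h1 : ∀ X, count s (fun _ => True) X =
        Pool.Agent.Y17.X.count (fun D => Pool.Agent.Y687.MQ.AdmD D ∧ 0 < s * D) X := by
      intro X
      unfold count Pool.Agent.Y17.X.count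
      refine Nat.card_congr (Equiv.subtypeEquivRight fun D => ?_)
      rw [and_true]
      exact Iff.rfl
    have hlim := Pool.Agent.Y17.X.pattern_of Pool.Agent.Y687.JQ.t_JDEN hs
      (fun D => TwoPart (twist D)) (fun D h h1 => (dich h h1).2.1) K hK G hG hd
    obtain ⟨c, X₀, hc, hlow⟩ := Pool.Agent.Y17.X.low hs
    have hB := Pool.Agent.Y17.X.base_atTop hs
    -- the exceptional elements
    have hcmp : ∀ (X : ℕ) (P Q : ℤ → Prop), (∀ D, P D → Q D ∨ D ∈ K) →
        Nat.card {D : ℤ // |D| ≤ (X : ℤ) ∧ P D} ≤ Nat.card {D : ℤ // |D| ≤ (X : ℤ) ∧ Q D} + K.card := by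
      intro X P Q hPQ
      have e : ∀ R : ℤ → Prop, Nat.card {D : ℤ // |D| ≤ (X : ℤ) ∧ R D} =
          (({D : ℤ | |D| ≤ (X : ℤ) ∧ R D} : Set ℤ)).ncard := fun R => Nat.card_coe_set_eq _
      rw [e, e, ← Set.ncard_coe_finset K]
      refine (Set.ncard_le_ncard ?_ ?_).trans (Set.ncard_union_le _ _)
      · rintro D ⟨h4, h5⟩
        rcases hPQ D h5 with h6 | h6
        · exact Or.inl ⟨h4, h6⟩
        · exact Or.inr h6
      · refine Set.Finite.union ?_ K.finite_toSet
        refine (Set.finite_Icc (-(X : ℤ)) X).subset ?_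
        rintro D ⟨h4, -⟩
        exact abs_le.1 h4
    have hexc : ∀ m ∈ K, ∀ D : ℤ, Adm D → D ∉ K →
        (BothEven (twist (star m D)) ↔ ¬ TwoPart (twist (star m D))) := by
      intro m hm D hD hDK
      have hS := (Pool.Agent.Y17.X.star_adm (hK m hm) hD).1
      have hne : star m D ≠ 1 := by
        intro h
        exact hDK ((Pool.Agent.Y17.X.star_eq_one (hK m hm) hD h) ▸ hm)
      obtain ⟨-, -, k3, k4⟩ := dich hS hne
      constructor
      · intro h5 h6
        exact k4 ⟨h6, h5⟩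
      · intro h5
        exact k3.resolve_left h5
    have hA : ∀ X, Pool.Agent.Y17.X.count (fun D => Pool.Agent.Y687.MQ.AdmD D ∧ 0 < s * D ∧
          (∀ m ∈ G, TwoPart (twist (Pool.Agent.Y17.X.star m D))) ∧
          ∀ m ∈ K, ¬ TwoPart (twist (Pool.Agent.Y17.X.star m D))) X ≤
        count s (fun D => (∀ m ∈ G, TwoPart (twist (star m D))) ∧
            ∀ m ∈ K, BothEven (twist (star m D))) X + K.card := by
      intro X
      refine hcmp X _ _ fun D hD => ?_
      by_cases hDK : D ∈ K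
      · exact Or.inr hDK
      · refine Or.inl ⟨hD.1, hD.2.1, hD.2.2.1, fun m hm => ?_⟩
        exact (hexc m hm D hD.1 hDK).2 (hD.2.2.2 m hm)
    have hA' : ∀ X, count s (fun D => (∀ m ∈ G, TwoPart (twist (star m D))) ∧
            ∀ m ∈ K, BothEven (twist (star m D))) X ≤
        Pool.Agent.Y17.X.count (fun D => Pool.Agent.Y687.MQ.AdmD D ∧ 0 < s * D ∧
          (∀ m ∈ G, TwoPart (twist (Pool.Agent.Y17.X.star m D))) ∧
          ∀ m ∈ K, ¬ TwoPart (twist (Pool.Agent.Y17.X.star m D))) X + K.card := by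
      intro X
      refine hcmp X _ _ fun D hD => ?_
      by_cases hDK : D ∈ K
      · exact Or.inr hDK
      · refine Or.inl ⟨hD.1, hD.2.1, hD.2.2.1, fun m hm => ?_⟩
        exact (hexc m hm D hD.1 hDK).1 (hD.2.2.2 m hm)
    have hlim2 : Tendsto (fun X : ℕ => (count s (fun D => (∀ m ∈ G, TwoPart (twist (star m D))) ∧
            ∀ m ∈ K, BothEven (twist (star m D))) X : ℝ) /
          (Pool.Agent.Y17.X.count (fun D => Pool.Agent.Y687.MQ.AdmD D ∧ 0 < s * D) X : ℝ)) atTop
        (nhds (Pool.Agent.Y703.CQ.c2 ^ G.card * (1 - Pool.Agent.Y703.CQ.c2) ^ K.card)) :=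
      dens_congr hA hA' hB hlim
    refine ⟨?_, ?_⟩
    · simp only [h1]
      exact hlim2
    · have hpos : (0 : ℝ) < Pool.Agent.Y703.CQ.c2 ^ G.card *
          (1 - Pool.Agent.Y703.CQ.c2) ^ K.card := by
        have k1 : (0 : ℝ) < Pool.Agent.Y703.CQ.c2 := by linarith
        have k2 : (0 : ℝ) < 1 - Pool.Agent.Y703.CQ.c2 := by linarith
        positivity
      refine Pool.Agent.Y17.X.low_of hpos hc X₀ (fun X hX => ?_) hB hlim2
      rw [← mul_assoc]
      exact hlow X hX

end Pool.Agent.Results.MP_92892c_nt.SimultaneousTwoPart
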