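import Pool.Agent.X280.BP.Nagao
import Pool.Agent.X280.BP.GaussFam
import Pool.Agent.X280.BP.Six3

/-!
# The products of Birch and Swinnerton-Dyer in a family with six marked points

For an integral Weierstrass equation `E` let `P(y) = ∏_{p ≤ y, p ∤ 2Δ} N_p / p`, where `N_p` is the number
of the points modulo `p` with the point at infinity; `1 / P(y)` is the partial product of length `y` of the
Euler product of `L(E, 1)`.

The quartic curves `Y² = X (u X + v)² + (X - 1) (X - 4) (X - 9) (X - 16)` with two integral parameters `u, v`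
have the two points at infinity, the eight points over `X = 1, 4, 9, 16` and the points over the roots of the
cubic `X (u X + v)²`.  The theorem is about their Weierstrass models `sixPoints`, which have six marked
integral points `mark c 0, …, mark c 5`.  Almost all curves of this family behave as the conjecture of Birch
and Swinnerton-Dyer predicts for the rank `6`, in three ways:

1. for every `δ > 0` and for all but a proportion `C / (log log Y)²` of the parameters of absolute value at
   most `H` the inequalities `(log y)^{13/2 - δ} ≤ P(y) ≤ (log y)^{13/2 + δ}` hold for ALL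
   `Y ≤ y ≤ H^{1/11}` at the same time (the exponent is `r + 1/2` with `r = 6`);
2. `(log P(y) - (13/2) log log y) / √(log log y)` tends to the standard normal law;
3. the sums of Mestre and Nagao `S(y) = - (log y)⁻¹ ∑_{p ≤ y} a_p (log p) / p` tend to the normal law with
   mean `6` and variance `1/2`.

The exponent `13/2` means that a random member of this family has much larger products than a curve without
marked points (`P(y) = (log y)^{1/2 + o(1)}`), by the factor `(log y)^6`.

Proof.  Let `Q = (X - 1) (X - 4) (X - 9) (X - 16)`.  For a fixed `X ≠ 0` the value `s = u X + v` is uniformly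
distributed modulo `p`, so the mean value of the quadratic character of the quartic at `X` is that of
`X s² + Q(X)` over `s`, which is `± 1 / p` or, at the four zeros of `Q`, which are squares, `1 - 1 / p`;
altogether the mean of `a_p` is `-6` up to the contribution of a few degenerate members.  The values at two
different `X ≠ 0` are independent, so the mean of `a_p²` is `p + O(1)`.  The degenerate members modulo `p` are
few (at most `8 p` of the `p²` pairs).  The rest is the probabilistic machinery for functions of the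
parameters modulo `p`: fourth moments over the box, a maximal inequality, and the method of moments with
Lévy's continuity theorem.
-/

set_option autoImplicit false

namespace Pool.Agent.Results.MP_92892c_nt.SixMarkedPoints

open Finset

/-- `(x, y)` is a point of the Weierstrass equation `E`. -/
def OnCurve (E : WeierstrassCurve ℤ) (q : ℤ × ℤ) : Prop :=
  q.2 ^ 2 + E.a₁ * q.1 * q.2 + E.a₃ * q.2 = q.1 ^ 3 + E.a₂ * q.1 ^ 2 + E.a₄ * q.1 + E.a₆

/-- `N_p`: the number of the points of `y² + a₁ x y + a₃ y = x³ + a₂ x² + a₄ x + a₆` modulo `p`, with the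
point at infinity. -/
noncomputable def numPoints (E : WeierstrassCurve ℤ) (p : ℕ) : ℕ :=
  Nat.card {q : ZMod p × ZMod p // q.2 ^ 2 + (E.a₁ : ZMod p) * q.1 * q.2 + (E.a₃ : ZMod p) * q.2 =
    q.1 ^ 3 + (E.a₂ : ZMod p) * q.1 ^ 2 + (E.a₄ : ZMod p) * q.1 + (E.a₆ : ZMod p)} + 1

/-- `p` is a prime that does not divide `2 Δ`. -/
def Good (E : WeierstrassCurve ℤ) (p : ℕ) : Prop := p.Prime ∧ ¬ (p : ℤ) ∣ 2 * E.Δ

open Classical in
/-- `P(y)`: the product of `N_p / p` over the primes `p ≤ y` which do not divide `2 Δ`. -/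
noncomputable def product (E : WeierstrassCurve ℤ) (y : ℕ) : ℝ :=
  ∏ p ∈ (range (y + 1)).filter (Good E), ((numPoints E p : ℝ) / p)

/-- The sum of Mestre and Nagao of length `y`: `S(y) = - (log y)⁻¹ ∑_{p ≤ y} (p + 1 - N_p) (log p) / p`. -/
noncomputable def nagaoSum (E : WeierstrassCurve ℤ) (y : ℕ) : ℝ :=
  -(∑ p ∈ (range (y + 1)).filter Nat.Prime, ((p : ℝ) + 1 - numPoints E p) * Real.log p / p) /
    Real.log y

/-- `w = u² - 30`, the parameters are `u = c 0`, `v = c 1`. -/
def w (c : Fin 2 → ℤ) : ℤ := c 0 ^ 2 - 30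

/-- `G = 8 u v + 1092 - w²`. -/
def G (c : Fin 2 → ℤ) : ℤ := 8 * c 0 * c 1 + 1092 - w c ^ 2

/-- The equation `y² + 2 w x y + (16 (v² - 820) - 2 w G) y = x (x - G - 192) (x - G + 192)`, a model of
`Y² = X (u X + v)² + (X - 1) (X - 4) (X - 9) (X - 16)`. -/
def sixPoints (c : Fin 2 → ℤ) : WeierstrassCurve ℤ :=
  ⟨2 * w c, -2 * G c, 16 * (c 1 ^ 2 - 820) - 2 * w c * G c, G c ^ 2 - 36864, 0⟩

/-- The first coordinate of the marked point over `X = i²`, `Y = i (u i² + v)`. -/
def xi (c : Fin 2 → ℤ) (i : ℤ) : ℤ := 8 * i * (c 0 * i ^ 2 + c 1) + 8 * i ^ 4 + 4 * w c * i ^ 2 + G c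

/-- The six marked points: `(0, 0)`, `(G + 192, 0)` and `(x_i, 4 i² x_i)` for `i = 1, 2, 3, 4`. -/
def mark (c : Fin 2 → ℤ) : Fin 6 → ℤ × ℤ :=
  ![(0, 0), (G c + 192, 0), (xi c 1, 4 * xi c 1), (xi c 2, 16 * xi c 2), (xi c 3, 36 * xi c 3),
    (xi c 4, 64 * xi c 4)]

/-- **Typical size** `P(y) = (log y)^{κ + o(1)}`: for every `δ > 0` there is a `C` such that for all `H` and
`Y ≥ 3`, for all but `C (log log Y)⁻² (2H+1)ⁿ` of the integral parameters with absolute values at most `H`,
`(log y)^{κ - δ} ≤ P(y) ≤ (log y)^{κ + δ}` for all `y ≥ Y` with `y¹¹ ≤ H`. -/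
def Typical {n : ℕ} (E : (Fin n → ℤ) → WeierstrassCurve ℤ) (κ : ℝ) : Prop :=
  ∀ δ : ℝ, 0 < δ → ∃ C : ℝ, ∀ H Y : ℕ, 3 ≤ Y →
    ({c : Fin n → ℤ | (∀ i, |c i| ≤ H) ∧ ∃ y : ℕ, Y ≤ y ∧ y ^ 11 ≤ H ∧
      (product (E c) y < Real.log y ^ (κ - δ) ∨
        Real.log y ^ (κ + δ) < product (E c) y)}.ncard : ℝ) ≤
    C / Real.log (Real.log Y) ^ 2 * (2 * H + 1 : ℝ) ^ n

/-- **The normal law** of `(log P(y) - κ log log y) / √(log log y)`: for all `u` and `ε > 0` there are `k`
and `y₀` such that for `y ≥ y₀` and `H ≥ y ^ k` the proportion of the parameters of absolute values at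
most `H` for which `log P(y) ≤ κ log log y + u √(log log y)` differs by at most `ε` from the probability
that a standard normal variable is at most `u`. -/
def NormalLaw {n : ℕ} (E : (Fin n → ℤ) → WeierstrassCurve ℤ) (κ : ℝ) : Prop :=
  ∀ u ε : ℝ, 0 < ε → ∃ k y₀ : ℕ, ∀ y H : ℕ, y₀ ≤ y → y ^ k ≤ H →
    |({c : Fin n → ℤ | (∀ i, |c i| ≤ H) ∧ Real.log (product (E c) y) ≤
      κ * Real.log (Real.log y) + u * √(Real.log (Real.log y))}.ncard : ℝ) / (2 * H + 1 : ℝ) ^ n -
      (ProbabilityTheory.gaussianReal 0 1).real (Set.Iic u)| ≤ ε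

/-- **The limit law of `S(y)`** is normal with mean `r` and variance `1/2`: for all `u` and `ε > 0` there are
`k` and `y₀` such that for `y ≥ y₀` and `H ≥ y ^ k` the proportion of the parameters of absolute values at
most `H` for which `S(y) ≤ u` differs by at most `ε` from the probability that a normal variable with mean
`r` and variance `1/2` is at most `u`. -/
def LimitLaw {n : ℕ} (E : (Fin n → ℤ) → WeierstrassCurve ℤ) (r : ℝ) : Prop :=
  ∀ u ε : ℝ, 0 < ε → ∃ k y₀ : ℕ, ∀ y H : ℕ, y₀ ≤ y → y ^ k ≤ H →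
    |({c : Fin n → ℤ | (∀ i, |c i| ≤ H) ∧ nagaoSum (E c) y ≤ u}.ncard : ℝ) / (2 * H + 1 : ℝ) ^ n -
      (ProbabilityTheory.gaussianReal r (1 / 2)).real (Set.Iic u)| ≤ ε

theorem nag_eq (E : WeierstrassCurve ℤ) (y : ℕ) : nagaoSum E y = Pool.Agent.X280.BP.nag E y := by
  unfold nagaoSum Pool.Agent.X280.BP.nag
  rw [Finset.range_eq_Ico]
  rfl

theorem red6 : Pool.Agent.X280.BP.Red sixPoints
    (fun p (c : Fin 2 → ZMod p) => Pool.Agent.X280.BP.V6 c) :=
  ⟨fun c p => by
    unfold sixPoints Pool.Agent.X280.BP.V6 Pool.Agent.Y722.HS.red WeierstrassCurve.map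
      Pool.Agent.X280.BP.G6 Pool.Agent.X280.BP.w6 G w
    simp⟩

theorem mark_on (c : Fin 2 → ℤ) (i : Fin 6) : OnCurve (sixPoints c) (mark c i) := by
  fin_cases i <;> simp [OnCurve, mark, sixPoints, xi, G, w] <;> ring

/-- **A family with six marked points.** -/
theorem result :
    (∀ c i, OnCurve (sixPoints c) (mark c i)) ∧
    Typical sixPoints (13 / 2) ∧ NormalLaw sixPoints (13 / 2) ∧ LimitLaw sixPoints 6 := by
  refine ⟨mark_on, fun δ hδ => ?_, fun u ε hε => ?_, fun u ε hε => ?_⟩
  · obtain ⟨K, hK⟩ := Pool.Agent.X280.BP.typical_of red6 Pool.Agent.X280.BP.dat6 hδ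
    refine ⟨K, fun H Y hY => ?_⟩
    have h := hK H Y hY
    rw [Fintype.card_fin, show (6 : ℝ) + 1 / 2 = 13 / 2 by norm_num] at h
    exact h
  · obtain ⟨k, y₀, hk⟩ := Pool.Agent.X280.BP.gauss_of red6 Pool.Agent.X280.BP.dat6 u hε
    refine ⟨k, y₀, fun y H hy hH => ?_⟩
    have h := hk y H hy hH
    rw [Fintype.card_fin, show (6 : ℝ) + 1 / 2 = 13 / 2 by norm_num] at h
    exact h
  · obtain ⟨k, y₀, hk⟩ := Pool.Agent.X280.BP.nag_gauss red6 Pool.Agent.X280.BP.dat6 u hε
    refine ⟨k, y₀, fun y H hy hH => ?_⟩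
    have h := hk y H hy hH
    rw [Fintype.card_fin] at h
    simp only [nag_eq]
    exact h

end Pool.Agent.Results.MP_92892c_nt.SixMarkedPoints
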